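import Pool.Agent.H17.PR.Asm

/-!
# The Bodirsky–Pinsker conjecture and `k`-homogeneous undirected graphs

For every number `k` and every template `𝔸` in the scope of the conjecture there is an infinite
undirected graph `(G; E)` without loops, `k`-homogeneous and without algebraicity, in the scope of
the conjecture such that
* `(G; E)` pp-constructs `K₃` if and only if `𝔸` does;
* `CSP(𝔸)` and `CSP(G; E)` are many-one reducible to each other in polynomial time.
Hence, for every `k`, the conjecture holds for all templates if and only if it holds for such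
undirected graphs.
The other definitions are in `Pool.Agent.H68.BG.Conj`.
-/

namespace Pool.Agent.H72.Kept.HomogeneousGraphs

open Pool.Agent.H68.BP

/-- The Bodirsky–Pinsker conjecture for infinite `k`-homogeneous undirected graphs without loops
and without algebraicity. -/
def BodirskyPinskerHomogeneous (k : ℕ) : Prop :=
  ∀ (D : Type) (E : D → D → Prop), GraphTemplate E → KHomogeneous k E →
    ¬ PPConstructsK3 (graph E) → CSP (graph E) ∈ N68a2faeb.P

theorem result (k : ℕ) :
    (∀ (σ : Sig) (D : Type) (𝔸 : Str σ D), InScope 𝔸 →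
      ∃ (G : Type) (E : G → G → Prop), GraphTemplate E ∧ KHomogeneous k E ∧
        (PPConstructsK3 (graph E) ↔ PPConstructsK3 𝔸) ∧
        N793a5b8e.ManyOneReducible (CSP 𝔸) (CSP (graph E)) ∧
        N793a5b8e.ManyOneReducible (CSP (graph E)) (CSP 𝔸)) ∧
    (BodirskyPinsker ↔ BodirskyPinskerHomogeneous k) := by
  refine ⟨fun σ D 𝔸 h => Pool.Agent.H17.PR.exists_hgraph k h,
    ⟨fun h D E hE _ => h _ _ _ hE.1, ?_⟩⟩
  intro h σ D 𝔸 hA hK
  obtain ⟨G, E, h1, h2, h3, h4, -⟩ := Pool.Agent.H17.PR.exists_hgraph k hA
  exact mem_P_of_manyOne h4 (h G E h1 h2 (fun h5 => hK (h3.1 h5)))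

end Pool.Agent.H72.Kept.HomogeneousGraphs
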